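import Pool.Agent.H45.Lib.Ts3997aac3.Q276.PL.Stm

set_option autoImplicit false

namespace Pool.Agent.Q109.PLJ

open Polynomial Pool.Agent.W223.HZ Pool.Agent.W223.PL Pool.Agent.Q276.PL Filter Topology

theorem blk_lim (s : ℝ) (hs : 0 < s) :
    Tendsto (fun D : ℝ => (Real.log D) ^ s) atTop atTop :=
  (tendsto_rpow_atTop hs).comp Real.tendsto_log_atTop

theorem blk_asym (δ C : ℝ) (hδ : 0 < δ) (hC : 0 ≤ C) :
    ∀ᶠ D : ℝ in atTop, C * (Real.log D) ^ 11 * Real.exp (-((Real.log D) ^ δ / 1216)) ≤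
      Real.exp (-((Real.log D) ^ (δ / 2))) := by
  have h1 := blk_lim (δ / 2) (by positivity)
  have h2 : Tendsto (fun u : ℝ => C * (u ^ (22 / δ) * Real.exp (-1 * u))) atTop (𝓝 (C * 0)) :=
    (tendsto_rpow_mul_exp_neg_mul_atTop_nhds_zero _ 1 one_pos).const_mul C
  rw [mul_zero] at h2
  filter_upwards [h1.eventually (eventually_ge_atTop 2432),
    (h2.comp h1).eventually_le_const one_pos,
    Real.tendsto_log_atTop.eventually (eventually_ge_atTop 1)] with D h3 h4 h5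
  simp only [Function.comp_apply] at h4
  set l := Real.log D with hl
  have hl0 : 0 ≤ l := by linarith
  set u := l ^ (δ / 2) with hu
  have hu1 : u ^ (22 / δ) = l ^ 11 := by
    rw [hu, ← Real.rpow_mul hl0, show δ / 2 * (22 / δ) = ((11 : ℕ) : ℝ) by field_simp; norm_num,
      Real.rpow_natCast]
  have hu2 : l ^ δ = u ^ 2 := by
    rw [hu, ← Real.rpow_natCast, ← Real.rpow_mul hl0]
    congr 1
    norm_num
  rw [hu1] at h4
  rw [hu2]
  have h6 : Real.exp (-(u ^ 2 / 1216)) ≤ Real.exp (-1 * u) * Real.exp (-u) := by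
    rw [← Real.exp_add, Real.exp_le_exp]
    nlinarith
  calc C * l ^ 11 * Real.exp (-(u ^ 2 / 1216))
      ≤ C * l ^ 11 * (Real.exp (-1 * u) * Real.exp (-u)) :=
        mul_le_mul_of_nonneg_left h6 (by positivity)
    _ = (C * (l ^ 11 * Real.exp (-1 * u))) * Real.exp (-u) := by ring
    _ ≤ 1 * Real.exp (-u) := mul_le_mul_of_nonneg_right h4 (Real.exp_pos _).le
    _ = Real.exp (-u) := one_mul _

theorem blk_fin (Y : ℝ) (p : ℤ → Prop) : {d : ℤ | 1 ≤ d ∧ (d : ℝ) ≤ Y ∧ p d}.Finite := by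
  refine (Set.finite_Icc (1 : ℤ) ⌊Y⌋).subset ?_
  rintro d ⟨h1, h2, -⟩
  exact ⟨h1, Int.le_floor.2 h2⟩

theorem blk (hB1 : StmtB1) (hB4 : StmtB4) : StmtBLK := by
  intro δ hδ hδ2
  obtain ⟨C₉, hC₉, hB⟩ := hB4
  obtain ⟨D₁, hD₁⟩ := Filter.eventually_atTop.1
    ((blk_asym δ (6 + 6 * C₉ * (361 ^ 3 + 722)) hδ (by positivity)).and
      (((blk_lim (δ / 2) (by positivity)).eventually (eventually_ge_atTop 2432)).and
      (((blk_lim (2 * δ) (by positivity)).eventually (eventually_ge_atTop (19 * C₉))).and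
      ((Real.tendsto_log_atTop.eventually (eventually_ge_atTop 1)).and
      (eventually_ge_atTop C₉)))))
  refine ⟨max 1 D₁, le_max_left _ _, fun D hD => ?_⟩
  obtain ⟨hA, h2, h3, h4, h5⟩ := hD₁ D ((le_max_right _ _).trans hD)
  have hD1 : 1 ≤ D := (le_max_left _ _).trans hD
  have hD0 : 0 < D := by linarith
  set l := Real.log D with hl
  have hl0 : 0 < l := by linarith
  have hDl : D = Real.exp l := (Real.exp_log hD0).symm
  set σ : ℝ := l ^ (1 / 2 - δ) with hσ
  have hσ1 : 1 ≤ σ := Real.one_le_rpow h4 (by linarith)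
  have hσ2 : σ ^ 2 = l ^ (1 - 2 * δ) := by
    rw [hσ, ← Real.rpow_natCast, ← Real.rpow_mul hl0.le]
    congr 1
    push_cast
    ring
  have hσl : σ ≤ l := by
    calc σ ≤ l ^ (1 : ℝ) := Real.rpow_le_rpow_of_exponent_le h4 (by linarith)
      _ = l := Real.rpow_one l
  have hσ2l : σ ^ 2 ≤ l := by
    rw [hσ2]
    calc l ^ (1 - 2 * δ) ≤ l ^ (1 : ℝ) := Real.rpow_le_rpow_of_exponent_le h4 (by linarith)
      _ = l := Real.rpow_one l
  have hσ3 : l ^ (2 * δ) * σ ^ 2 = l := by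
    rw [hσ2, ← Real.rpow_add hl0]
    rw [show 2 * δ + (1 - 2 * δ) = (1 : ℝ) by ring, Real.rpow_one]
  set m : ℕ := ⌈2 * (2 * σ + 1) ^ 2⌉₊ with hm
  have hmlo : 2 * (2 * σ + 1) ^ 2 ≤ m := Nat.le_ceil _
  have hmhi : (m : ℝ) ≤ 19 * σ ^ 2 := by
    have h6 : (m : ℝ) < 2 * (2 * σ + 1) ^ 2 + 1 := Nat.ceil_lt_add_one (by positivity)
    nlinarith
  have hm0 : 0 < m := Nat.ceil_pos.2 (by positivity)
  have hm0' : (0 : ℝ) < m := by exact_mod_cast hm0
  have hCm : C₉ * m ≤ l := by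
    calc C₉ * m ≤ C₉ * (19 * σ ^ 2) := mul_le_mul_of_nonneg_left hmhi (by linarith)
      _ = (19 * C₉) * σ ^ 2 := by ring
      _ ≤ l ^ (2 * δ) * σ ^ 2 := mul_le_mul_of_nonneg_right h3 (by positivity)
      _ = l := hσ3
  set w : ℝ := l / (8 * m) with hw
  have hwlo : l ^ (2 * δ) / 152 ≤ w := by
    rw [hw, div_le_div_iff₀ (by norm_num) (by positivity)]
    have h6 : 0 ≤ l ^ (2 * δ) := by positivity
    calc l ^ (2 * δ) * (8 * m) ≤ l ^ (2 * δ) * (8 * (19 * σ ^ 2)) :=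
          mul_le_mul_of_nonneg_left (by linarith) h6
      _ = (l ^ (2 * δ) * σ ^ 2) * 152 := by ring
      _ = l * 152 := by rw [hσ3]
  have hm1' : (1 : ℝ) ≤ m := by exact_mod_cast hm0
  have hwl : w ≤ l := by
    rw [hw, div_le_iff₀ (by positivity)]
    nlinarith
  have hw0 : 0 < w := by positivity
  have hL : D ^ (1 / (8 * (m : ℝ))) = Real.exp w := by
    rw [Real.rpow_def_of_pos hD0, ← hl, hw]
    congr 1
    ring
  have hL2 : D ^ (1 / (16 * (m : ℝ))) = Real.exp (w / 2) := by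
    rw [Real.rpow_def_of_pos hD0, ← hl, hw]
    congr 1
    field_simp
    norm_num
  set t : ℝ := l ^ δ with ht
  have ht2 : l ^ (2 * δ) = t ^ 2 := by
    rw [ht, ← Real.rpow_natCast, ← Real.rpow_mul hl0.le]
    congr 1
    push_cast
    ring
  have htu : (l ^ (δ / 2)) ^ 2 = t := by
    rw [ht, ← Real.rpow_natCast, ← Real.rpow_mul hl0.le]
    congr 1
    push_cast
    ring
  have ht1 : 152 ≤ t := by
    rw [← htu]
    nlinarith
  have ht0 : 0 < t := by linarith
  rw [ht2] at hwlo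
  set K : ℕ := ⌊(w / 4) / t⌋₊ with hK
  have hK1 : (K : ℝ) * t ≤ w / 4 := by
    rw [← le_div_iff₀ ht0]
    exact Nat.floor_le (by positivity)
  have hK2 : t / 608 ≤ ((K + 1 : ℕ) : ℝ) := by
    have h6 : (w / 4) / t < (K : ℝ) + 1 := Nat.lt_floor_add_one _
    have h7 : t / 608 ≤ (w / 4) / t := by
      rw [le_div_iff₀ ht0]
      nlinarith
    push_cast
    linarith
  set e : ℝ := Real.exp (-(t / 1216)) with he
  have he0 : 0 < e := Real.exp_pos _
  -- many prime factors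
  have hT1 := hB1 (K + 1) (2 * D) (by linarith)
  have hT1' : 2 * D * (1 + Real.log (2 * D)) / 2 ^ (K + 1) ≤ D * (6 * l ^ 11 * e) := by
    have h6 : Real.log (2 * D) = Real.log 2 + l := by
      rw [Real.log_mul (by norm_num) hD0.ne']
    have h7 : Real.exp (t / 1216) ≤ 2 ^ (K + 1) := by
      have h8 : (2 : ℝ) ^ (K + 1) = Real.exp (((K + 1 : ℕ) : ℝ) * Real.log 2) := by
        rw [Real.exp_nat_mul, Real.exp_log (by norm_num)]
      rw [h8, Real.exp_le_exp]
      have h9 := Real.log_two_gt_d9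
      nlinarith
    have h8 : e = (Real.exp (t / 1216))⁻¹ := by rw [he, Real.exp_neg]
    have h9 : ((2 : ℝ) ^ (K + 1))⁻¹ ≤ e := by
      rw [h8]
      exact inv_anti₀ (Real.exp_pos _) h7
    have h10 : l ≤ l ^ 11 := by
      calc l = l ^ 1 := (pow_one l).symm
        _ ≤ l ^ 11 := pow_le_pow_right₀ h4 (by norm_num)
    have h11 : 1 + Real.log (2 * D) ≤ 3 * l ^ 11 := by
      rw [h6]
      have := Real.log_two_lt_d9
      linarith
    calc 2 * D * (1 + Real.log (2 * D)) / 2 ^ (K + 1)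
        = 2 * D * (1 + Real.log (2 * D)) * ((2 : ℝ) ^ (K + 1))⁻¹ := by rw [div_eq_mul_inv]
      _ ≤ 2 * D * (3 * l ^ 11) * e := by
          apply mul_le_mul _ h9 (by positivity) (by positivity)
          exact mul_le_mul_of_nonneg_left h11 (by positivity)
      _ = D * (6 * l ^ 11 * e) := by ring
  -- few prime factors
  have hT2 := hB D σ (Real.exp (w / 4)) (Real.exp t) m K h5 hm0 (by linarith) hmlo hCm
    (Real.one_le_exp (by positivity))
    (by rw [hDl]; exact Real.exp_le_exp.2 (by linarith)) (Real.one_le_exp ht0.le)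
    (by rw [← Real.exp_nat_mul]; exact Real.exp_le_exp.2 hK1)
  rw [hL, hL2] at hT2
  have hm19 : (m : ℝ) ≤ 19 * l := by linarith
  have hm2 : (m : ℝ) ^ 2 * l ≤ 361 * l ^ 3 := by
    calc (m : ℝ) ^ 2 * l ≤ (19 * l) ^ 2 * l :=
          mul_le_mul_of_nonneg_right (pow_le_pow_left₀ hm0'.le hm19 2) hl0.le
      _ = 361 * l ^ 3 := by ring
  have hT2' : (D / Real.exp w + 1) * (2 * σ * l + 1) *
      (C₉ * Real.exp (w / 4) * Real.exp (w / 2) * ((m : ℝ) ^ 2 * l) ^ 3 +
      C₉ * (m : ℝ) ^ 2 * l * (Real.exp w / Real.exp t + 1)) ≤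
      D * (6 * C₉ * (361 ^ 3 + 722) * l ^ 11 * e) := by
    have h6 : D / Real.exp w + 1 ≤ 2 * D / Real.exp w := by
      have : 1 ≤ D / Real.exp w := by
        rw [one_le_div (Real.exp_pos _), hDl]
        exact Real.exp_le_exp.2 hwl
      have h8 : 2 * D / Real.exp w = D / Real.exp w + D / Real.exp w := by ring
      linarith
    have h7 : 2 * σ * l + 1 ≤ 3 * l ^ 2 := by nlinarith
    have h8 : C₉ * Real.exp (w / 4) * Real.exp (w / 2) * ((m : ℝ) ^ 2 * l) ^ 3 ≤
        C₉ * Real.exp (3 * w / 4) * (361 ^ 3 * l ^ 9) := by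
      have h9 : C₉ * Real.exp (w / 4) * Real.exp (w / 2) = C₉ * Real.exp (3 * w / 4) := by
        rw [mul_assoc, ← Real.exp_add]
        congr 2
        ring
      rw [h9]
      apply mul_le_mul_of_nonneg_left _ (by positivity)
      calc ((m : ℝ) ^ 2 * l) ^ 3 ≤ (361 * l ^ 3) ^ 3 := pow_le_pow_left₀ (by positivity) hm2 3
        _ = 361 ^ 3 * l ^ 9 := by ring
    have h9 : C₉ * (m : ℝ) ^ 2 * l * (Real.exp w / Real.exp t + 1) ≤
        C₉ * (361 * l ^ 3) * (2 * (Real.exp w / Real.exp t)) := by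
      have h10 : 1 ≤ Real.exp w / Real.exp t := by
        rw [one_le_div (Real.exp_pos _)]
        apply Real.exp_le_exp.2
        nlinarith
      apply mul_le_mul _ (by linarith) (by positivity) (by positivity)
      rw [mul_assoc]
      exact mul_le_mul_of_nonneg_left hm2 (by linarith)
    have h10 : Real.exp (-(w / 4)) ≤ e := by
      rw [he]
      apply Real.exp_le_exp.2
      nlinarith
    have h11 : Real.exp (-t) ≤ e := by
      rw [he]
      apply Real.exp_le_exp.2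
      linarith
    calc (D / Real.exp w + 1) * (2 * σ * l + 1) *
        (C₉ * Real.exp (w / 4) * Real.exp (w / 2) * ((m : ℝ) ^ 2 * l) ^ 3 +
        C₉ * (m : ℝ) ^ 2 * l * (Real.exp w / Real.exp t + 1))
        ≤ (2 * D / Real.exp w) * (3 * l ^ 2) * (C₉ * Real.exp (3 * w / 4) * (361 ^ 3 * l ^ 9) +
          C₉ * (361 * l ^ 3) * (2 * (Real.exp w / Real.exp t))) := by
          apply mul_le_mul _ (add_le_add h8 h9) (by positivity) (by positivity)
          exact mul_le_mul h6 h7 (by positivity) (by positivity)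
      _ = D * (6 * C₉ * (361 ^ 3 * l ^ 11 * (Real.exp (3 * w / 4) / Real.exp w) +
          722 * l ^ 5 * (1 / Real.exp t))) := by
          have hx := (Real.exp_pos w).ne'
          have hy := (Real.exp_pos t).ne'
          field_simp
          ring
      _ = D * (6 * C₉ * (361 ^ 3 * l ^ 11 * Real.exp (-(w / 4)) +
          722 * l ^ 5 * Real.exp (-t))) := by
          rw [← Real.exp_sub, one_div, ← Real.exp_neg]
          congr 6
          ring
      _ ≤ D * (6 * C₉ * (361 ^ 3 * l ^ 11 * e + 722 * l ^ 11 * e)) := by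
          apply mul_le_mul_of_nonneg_left _ hD0.le
          apply mul_le_mul_of_nonneg_left _ (by positivity)
          apply add_le_add
          · exact mul_le_mul_of_nonneg_left h10 (by positivity)
          · apply mul_le_mul _ h11 (by positivity) (by positivity)
            apply mul_le_mul_of_nonneg_left _ (by norm_num)
            exact pow_le_pow_right₀ h4 (by norm_num)
      _ = D * (6 * C₉ * (361 ^ 3 + 722) * l ^ 11 * e) := by ring
  -- together
  set A₁ : Set ℤ := {d : ℤ | 1 ≤ d ∧ (d : ℝ) ≤ 2 * D ∧ Squarefree d ∧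
    K + 1 ≤ d.natAbs.primeFactors.card} with hA₁
  set A₂ : Set ℤ := {d : ℤ | D ≤ d ∧ (d : ℝ) ≤ 2 * D ∧ Squarefree d ∧
    d.natAbs.primeFactors.card ≤ K ∧ ∃ x y : ℤ, Fund d x y ∧ (y : ℝ) ≤ D ^ σ} with hA₂
  have hf₁ : A₁.Finite := blk_fin _ _
  have hf₂ : A₂.Finite := by
    refine (blk_fin (2 * D) (fun _ => True)).subset ?_
    rintro d ⟨h6, h7, -⟩
    refine ⟨?_, h7, trivial⟩
    have : (1 : ℝ) ≤ d := by linarith
    exact_mod_cast this
  have hDσ : D ^ σ = Real.exp (l ^ (3 / 2 - δ)) := by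
    rw [Real.rpow_def_of_pos hD0, ← hl, hσ]
    congr 1
    nth_rewrite 1 [← Real.rpow_one l]
    rw [← Real.rpow_add hl0]
    congr 1
    ring
  have hsub : {d : ℤ | D ≤ d ∧ (d : ℝ) ≤ 2 * D ∧ Squarefree d ∧
      ∃ x y : ℤ, Fund d x y ∧ (y : ℝ) ≤ Real.exp (l ^ (3 / 2 - δ))} ⊆ A₁ ∪ A₂ := by
    rintro d ⟨h6, h7, h8, h9⟩
    rcases Nat.lt_or_ge K d.natAbs.primeFactors.card with h10 | h10
    · left
      refine ⟨?_, h7, h8, h10⟩
      have : (1 : ℝ) ≤ d := by linarith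
      exact_mod_cast this
    · right
      refine ⟨h6, h7, h8, h10, ?_⟩
      rw [hDσ]
      exact h9
  have hcard := (Set.ncard_le_ncard hsub (hf₁.union hf₂)).trans (Set.ncard_union_le A₁ A₂)
  have hcard' : (({d : ℤ | D ≤ d ∧ (d : ℝ) ≤ 2 * D ∧ Squarefree d ∧
      ∃ x y : ℤ, Fund d x y ∧ (y : ℝ) ≤ Real.exp (l ^ (3 / 2 - δ))}.ncard : ℕ) : ℝ) ≤
      (A₁.ncard : ℝ) + A₂.ncard := by exact_mod_cast hcard
  refine hcard'.trans ?_
  calc (A₁.ncard : ℝ) + A₂.ncard
      ≤ D * (6 * l ^ 11 * e) + D * (6 * C₉ * (361 ^ 3 + 722) * l ^ 11 * e) :=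
        add_le_add (hT1.trans hT1') (hT2.trans hT2')
    _ = D * ((6 + 6 * C₉ * (361 ^ 3 + 722)) * l ^ 11 * e) := by ring
    _ ≤ D * Real.exp (-(l ^ (δ / 2))) := mul_le_mul_of_nonneg_left hA hD0.le

end Pool.Agent.Q109.PLJ
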