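import Pool.Agent.H45.Lib.Ts3997aac3.Q276.PL.Stm

set_option autoImplicit false

namespace Pool.Agent.Q109.PLJ

open Polynomial Pool.Agent.W223.HZ Pool.Agent.W223.PL Pool.Agent.Q276.PL

/-- a bound for the value of a polynomial -/
theorem cls_eval (P : ℤ[X]) (m : ℕ) (B X : ℝ) (hP : P.natDegree < m + 1)
    (hB : ∀ k, |(P.coeff k : ℝ)| ≤ B) (hX : 1 ≤ X) (t : ℤ) (ht : |(t : ℝ)| ≤ X) :
    |((P.eval t : ℤ) : ℝ)| ≤ ((m : ℝ) + 1) * B * X ^ m := by
  have hB0 : 0 ≤ B := (abs_nonneg _).trans (hB 0)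
  rw [Polynomial.eval_eq_sum_range' hP]
  push_cast
  refine (Finset.abs_sum_le_sum_abs _ _).trans ?_
  calc ∑ k ∈ Finset.range (m + 1), |(P.coeff k : ℝ) * (t : ℝ) ^ k|
      ≤ ∑ k ∈ Finset.range (m + 1), B * X ^ m := by
        apply Finset.sum_le_sum
        intro k hk
        rw [abs_mul, abs_pow]
        apply mul_le_mul (hB k) _ (by positivity) hB0
        calc |(t : ℝ)| ^ k ≤ X ^ k := pow_le_pow_left₀ (abs_nonneg _) ht k
          _ ≤ X ^ m := pow_le_pow_right₀ hX (by have := Finset.mem_range.1 hk; omega)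
    _ = ((m : ℝ) + 1) * B * X ^ m := by
        rw [Finset.sum_const, Finset.card_range, nsmul_eq_mul]
        push_cast
        ring

theorem cls (hMIN : StmtMIN) (hR2D : StmtR2D) (hSIDE : StmtSIDE) : StmtCLASS := by
  intro m d₀ η L z Λ H T x y P Q hm hη hd₀ hL hz hΛ hmΛ hH hT hb hPQ hPm hQm hrel hexp
  have hm1 : (1 : ℝ) ≤ m := by exact_mod_cast hm
  have hd₀' : (1 : ℝ) ≤ d₀ := by exact_mod_cast hd₀
  -- the two relations
  have key : ∃ A B A' B' : ℤ[X], (A ≠ 0 ∨ B ≠ 0) ∧ (A' ≠ 0 ∨ B' ≠ 0) ∧ A.natDegree < m + 1 ∧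
      B.natDegree < m + 1 ∧ A'.natDegree < m + 1 ∧ B'.natDegree < m + 1 ∧
      (∀ τ ∈ T, (x τ - 1) * A.eval τ + y τ * B.eval τ = 0) ∧
      (∀ τ ∈ T, (x τ + 1) * A'.eval τ + y τ * B'.eval τ = 0) := by
    have hmul : ((C d₀ + X) * P).natDegree < m + 1 := by
      refine lt_of_le_of_lt Polynomial.natDegree_mul_le ?_
      have : (C d₀ + X : ℤ[X]).natDegree ≤ 1 := by
        rw [add_comm]
        exact (Polynomial.natDegree_X_add_C d₀).le
      omega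
    have hne : Q ≠ 0 ∨ (C d₀ + X) * P ≠ 0 := by
      rcases hPQ with h | h
      · right
        refine mul_ne_zero ?_ h
        rw [add_comm]
        exact Polynomial.X_add_C_ne_zero d₀
      · left; exact h
    have hsec : ∀ τ ∈ T, (x τ + η) * Q.eval τ + y τ * ((C d₀ + X) * P).eval τ = 0 := by
      intro τ hτ
      obtain ⟨-, -, -, hx1, hy1, hpell, -⟩ := hT τ hτ
      have h1 := hrel τ hτ
      have hη2 : η ^ 2 = 1 := by rcases hη with h | h <;> rw [h] <;> norm_num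
      have hy0 : y τ ≠ 0 := by omega
      apply mul_left_cancel₀ hy0
      rw [mul_zero]
      simp only [eval_mul, eval_add, eval_C, eval_X]
      linear_combination (x τ + η) * h1 - P.eval τ * hpell + P.eval τ * hη2
    rcases hη with h | h
    · refine ⟨P, Q, Q, (C d₀ + X) * P, hPQ, hne, by omega, by omega, by omega, hmul, ?_, ?_⟩
      · intro τ hτ
        have := hrel τ hτ
        rwa [h] at this
      · intro τ hτ
        have := hsec τ hτ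
        rwa [h] at this
    · refine ⟨Q, (C d₀ + X) * P, P, Q, hne, hPQ, by omega, hmul, by omega, by omega, ?_, ?_⟩
      · intro τ hτ
        have := hsec τ hτ
        rw [h] at this
        linear_combination this
      · intro τ hτ
        have := hrel τ hτ
        rw [h] at this
        linear_combination this
  obtain ⟨A, B, A', B', hAB, hAB', hA, hB, hA', hB', hr, hr'⟩ := key
  have hdet := hR2D (m + 1) T (fun τ => x τ - 1) y A B hAB hA hB hr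
  have hdet' := hR2D (m + 1) T (fun τ => x τ + 1) y A' B' hAB' hA' hB' hr'
  have hbx : ∀ τ ∈ T, ∀ j < m + 1, |(((x τ - 1) * τ ^ j : ℤ) : ℝ)| ≤ H ∧
      |((y τ * τ ^ j : ℤ) : ℝ)| ≤ H := by
    intro τ hτ j hj
    obtain ⟨-, -, -, hx1, hy1, hpell, -⟩ := hT τ hτ
    refine ⟨le_trans ?_ (hb τ hτ j hj).1, (hb τ hτ j hj).2⟩
    push_cast
    rw [abs_mul, abs_mul]
    apply mul_le_mul_of_nonneg_right _ (abs_nonneg _)
    have hx1' : (1 : ℝ) ≤ x τ := by exact_mod_cast hx1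
    rw [abs_of_nonneg (by linarith), abs_of_nonneg (by linarith)]
    linarith
  obtain ⟨T₁, hT₁, hc₁, P₁, Q₁, -, hP₁, hQ₁, hcP₁, hcQ₁, hco₁, hre₁⟩ :=
    hMIN (m + 1) (by omega) T (fun τ => x τ - 1) y H hH hbx hdet
  obtain ⟨T₂, hT₂, hc₂, P₂, Q₂, -, hP₂, hQ₂, hcP₂, hcQ₂, hco₂, hre₂⟩ :=
    hMIN (m + 1) (by omega) T (fun τ => x τ + 1) y H hH hb hdet'
  set W : ℝ := (2 * ((m + 1 : ℕ) : ℝ) * H) ^ (2 * (m + 1)) with hW
  have hW' : W = (2 * ((m : ℝ) + 1) * H) ^ (2 * (m + 1)) := by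
    rw [hW]
    push_cast
    rfl
  rw [← hW'] at hexp
  have hW0 : 0 ≤ W := by rw [hW']; positivity
  have hz0 : 0 < z := by linarith
  have hval : ∀ (R : ℤ[X]) (t : ℤ), R.natDegree < m + 1 → (∀ k, |(R.coeff k : ℝ)| ≤ W) →
      |(t : ℝ)| ≤ L + d₀ → 2 * z * |((R.eval t : ℤ) : ℝ)| ≤ Real.exp Λ := by
    intro R t hR hc ht
    refine le_trans ?_ hexp
    have h1 := cls_eval R m W (L + d₀) hR hc (by linarith) t ht
    calc 2 * z * |((R.eval t : ℤ) : ℝ)| ≤ 2 * z * (((m : ℝ) + 1) * W * (L + d₀) ^ m) :=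
          mul_le_mul_of_nonneg_left h1 (by positivity)
      _ = 2 * z * (m + 1) * W * (L + d₀) ^ m := by ring
  have hval' : ∀ (R : ℤ[X]) (t : ℤ), R.natDegree < m + 1 → (∀ k, |(R.coeff k : ℝ)| ≤ W) →
      |(t : ℝ)| ≤ L + d₀ → |((R.eval t : ℤ) : ℝ)| ≤ Real.exp Λ := by
    intro R t hR hc ht
    refine le_trans ?_ (hval R t hR hc ht)
    have := abs_nonneg ((R.eval t : ℤ) : ℝ)
    nlinarith
  have hsub₁ : T₁ ∩ T₂ ⊆ T := Finset.inter_subset_left.trans hT₁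
  obtain ⟨E, hE, hEc, hE1, hE2⟩ := hSIDE (m + 1) d₀ L z Λ (T₁ ∩ T₂) x y P₁ Q₁ P₂ Q₂ (by omega) hL hz
    hΛ (by push_cast; linarith) (fun τ hτ => hT τ (hsub₁ hτ)) hP₁ hQ₁ hP₂ hQ₂ hco₁ hco₂
    (fun τ hτ => hre₁ τ (Finset.mem_inter.1 hτ).1) (fun τ hτ => hre₂ τ (Finset.mem_inter.1 hτ).2)
    (by
      intro τ hτ
      have h1 := (hT τ (hsub₁ hτ)).1
      exact ⟨hval P₁ τ hP₁ hcP₁ (by linarith), hval P₂ τ hP₂ hcP₂ (by linarith)⟩)
  have hcard : ((E ∪ (T \ (T₁ ∩ T₂))).card : ℝ) ≤ 2 * ((m : ℝ) + 1) ^ 2 +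
      800000 * z * √L * Λ ^ 2 * Real.log (120 * √L * Λ) := by
    have h1 : (T \ (T₁ ∩ T₂)).card ≤ 2 * (m + 1) ^ 2 := by
      have h3 : T \ (T₁ ∩ T₂) = (T \ T₁) ∪ (T \ T₂) := by
        ext a
        simp only [Finset.mem_sdiff, Finset.mem_inter, Finset.mem_union]
        tauto
      rw [h3]
      exact (Finset.card_union_le _ _).trans (by omega)
    have h2 : (E ∪ (T \ (T₁ ∩ T₂))).card ≤ E.card + 2 * (m + 1) ^ 2 :=
      (Finset.card_union_le _ _).trans (by omega)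
    have h3 : ((E ∪ (T \ (T₁ ∩ T₂))).card : ℝ) ≤ E.card + 2 * ((m : ℝ) + 1) ^ 2 := by
      exact_mod_cast h2
    linarith
  have hsub : E ∪ (T \ (T₁ ∩ T₂)) ⊆ T :=
    Finset.union_subset (hE.trans hsub₁) Finset.sdiff_subset
  have hrest : ∀ τ ∈ T \ (E ∪ (T \ (T₁ ∩ T₂))), τ ∈ (T₁ ∩ T₂) \ E := by
    intro τ hτ
    rw [Finset.mem_sdiff, Finset.mem_union, Finset.mem_sdiff] at hτ
    rw [Finset.mem_sdiff]
    tauto
  have hneg : |((-d₀ : ℤ) : ℝ)| ≤ L + d₀ := by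
    push_cast
    rw [abs_neg, abs_of_nonneg (by linarith)]
    linarith
  by_cases h0 : Q₁.eval (-d₀) = 0
  · obtain ⟨h3, h4⟩ := hE2 h0
    exact ⟨P₁.eval (-d₀), h3, hval' P₁ _ hP₁ hcP₁ hneg, _, hsub, hcard,
      fun τ hτ => h4 τ (hrest τ hτ)⟩
  · exact ⟨Q₁.eval (-d₀), h0, hval' Q₁ _ hQ₁ hcQ₁ hneg, _, hsub, hcard,
      fun τ hτ => hE1 h0 τ (hrest τ hτ)⟩

end Pool.Agent.Q109.PLJ
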